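import Pool.Agent.LibGenericSolve.Basic

/-!
Two distinct cubic Veronese surfaces through thirteen general points of projective nine-space:
the system of equations, and a nondegenerate solution over the field with eleven elements.
-/

open MvPolynomial

namespace Pool.Agent.HVeronese

/-- Exponents of the ten cubic monomials in three variables. -/
def ex : Fin 10 → Fin 3 → ℕ :=
  ![![3, 0, 0], ![2, 1, 0], ![2, 0, 1], ![1, 2, 0], ![1, 1, 1], ![1, 0, 2], ![0, 3, 0],
    ![0, 2, 1], ![0, 1, 2], ![0, 0, 3]]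

/-- The ten cubic monomials. -/
def nu {R : Type} [CommRing R] (v : Fin 3 → R) (μ : Fin 10) : R :=
  v 0 ^ ex μ 0 * v 1 ^ ex μ 1 * v 2 ^ ex μ 2

/-- Partial derivatives of the ten cubic monomials. -/
def dnu {R : Type} [CommRing R] (v : Fin 3 → R) (c : Fin 3) (μ : Fin 10) : R :=
  ![(ex μ 0 : R) * v 0 ^ (ex μ 0 - 1) * v 1 ^ ex μ 1 * v 2 ^ ex μ 2,
    (ex μ 1 : R) * v 0 ^ ex μ 0 * v 1 ^ (ex μ 1 - 1) * v 2 ^ ex μ 2,
    (ex μ 2 : R) * v 0 ^ ex μ 0 * v 1 ^ ex μ 1 * v 2 ^ (ex μ 2 - 1)] c

/-- Images of the last three points: two normalisations. -/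
def U {R : Type} [CommRing R] (s : Fin 2) (k : Fin 3) : Fin 3 → R :=
  ![![![1, 0, 1], ![0, 1, 2], ![0, 0, 1]], ![![1, 0, 0], ![0, 1, 0], ![0, 0, 1]]] s k

/-- Index set for unknowns and equations. -/
abbrev Idx := (Fin 3 × Fin 10) × Fin 2

/-- The sixty equations. -/
noncomputable def f (j : Idx) : MvPolynomial Idx (MvPolynomial (Fin 3 × Fin 10) ℤ) :=
  (∑ i : Fin 10, C (X (j.1.1, i)) * nu (fun c => X ((c, i), j.2)) j.1.2) - nu (U j.2 j.1.1) j.1.2

/-- The matrix of Veronese vectors. -/
def Nm {R : Type} [CommRing R] (q : Fin 10 → Fin 3 → R) : Matrix (Fin 10) (Fin 10) R :=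
  Matrix.of fun μ i => nu (q i) μ

/-- The matrix carrying the first ten Veronese vectors to multiples of the second ones. -/
noncomputable def Hm {R : Type} [CommRing R] (q q' : Fin 10 → Fin 3 → R) :
    Matrix (Fin 10) (Fin 10) R :=
  Nm q' * (Nm q).adjugate

/-- Positions of the monomials not involving the last variable. -/
def zi : Fin 4 → Fin 10 := ![0, 1, 3, 6]

/-- Quadrics `z 0 * z b - z c * z d`. -/
def qb : Fin 7 → Fin 10 := ![3, 4, 5, 6, 7, 7, 8]
def qc : Fin 7 → Fin 10 := ![1, 1, 2, 1, 1, 2, 1]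
def qd : Fin 7 → Fin 10 := ![1, 2, 2, 3, 4, 3, 5]

/-- The seven quadrics pulled back to the line at infinity. -/
def Bm {R : Type} [CommRing R] (H : Matrix (Fin 10) (Fin 10) R) : Matrix (Fin 7) (Fin 7) R :=
  Matrix.of fun k c => ∑ x : Fin 4, ∑ y : Fin 4, if x.val + y.val = c.val then
    H 0 (zi x) * H (qb k) (zi y) - H (qc k) (zi x) * H (qd k) (zi y) else 0

/-- The open condition. -/
noncomputable def delta {R : Type} [CommRing R] (q q' : Fin 10 → Fin 3 → R) : R :=
  (Nm q).det * (Nm q').det * (Bm (Hm q q')).det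

/-! ### Compatibility with ring homomorphisms -/

section map

variable {R S : Type} [CommRing R] [CommRing S] (φ : R →+* S)

theorem map_nu (v : Fin 3 → R) (μ : Fin 10) : φ (nu v μ) = nu (fun c => φ (v c)) μ := by
  simp [nu]

theorem map_dnu (v : Fin 3 → R) (c : Fin 3) (μ : Fin 10) :
    φ (dnu v c μ) = dnu (fun c => φ (v c)) c μ := by
  fin_cases c <;> simp [dnu]

theorem map_U (s : Fin 2) (k c : Fin 3) : φ (U s k c) = U s k c := by
  fin_cases s <;> fin_cases k <;> fin_cases c <;> simp [U, map_ofNat]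

theorem map_Nm (q : Fin 10 → Fin 3 → R) : (Nm q).map φ = Nm (fun i c => φ (q i c)) := by
  ext μ i
  simp [Nm, map_nu]

theorem map_Hm (q q' : Fin 10 → Fin 3 → R) :
    (Hm q q').map φ = Hm (fun i c => φ (q i c)) (fun i c => φ (q' i c)) := by
  have h := map_Nm φ q
  have h' := map_Nm φ q'
  unfold Hm
  rw [Matrix.map_mul, h', ← h]
  congr 1
  exact RingHom.map_adjugate φ (Nm q)

theorem map_Bm (H : Matrix (Fin 10) (Fin 10) R) : (Bm H).map φ = Bm (H.map φ) := by
  ext k c
  simp only [Bm, Matrix.map_apply, Matrix.of_apply, map_sum]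
  refine Finset.sum_congr rfl fun x _ => Finset.sum_congr rfl fun y _ => ?_
  split_ifs <;> simp

theorem map_delta (q q' : Fin 10 → Fin 3 → R) :
    φ (delta q q') = delta (fun i c => φ (q i c)) (fun i c => φ (q' i c)) := by
  unfold delta
  rw [map_mul, map_mul, RingHom.map_det, RingHom.map_det, RingHom.map_det]
  simp only [RingHom.mapMatrix_apply]
  rw [map_Nm, map_Nm, map_Bm, map_Hm]

end map

/-! ### Evaluation and derivatives -/

open Pool.Agent.LibGenericSolve in
theorem ev_f {K : Type} [CommRing K] (s : Fin 3 × Fin 10 → K) (x : Idx → K) (j : Idx) :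
    ev s x (f j) = (∑ i : Fin 10, s (j.1.1, i) * nu (fun c => x ((c, i), j.2)) j.1.2)
      - nu (U j.2 j.1.1) j.1.2 := by
  unfold f
  rw [map_sub, map_sum]
  congr 1
  · refine Finset.sum_congr rfl fun i _ => ?_
    rw [map_mul, map_nu]
    simp [ev]
  · rw [map_nu]
    congr 1
    ext c
    exact map_U _ _ _ _

theorem pderiv_nu (c : Fin 3) (i i' : Fin 10) (s s' : Fin 2) (μ : Fin 10) :
    pderiv ((c, i), s) (nu (fun c => (X ((c, i'), s') : MvPolynomial Idx
      (MvPolynomial (Fin 3 × Fin 10) ℤ))) μ) =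
      if i = i' ∧ s = s' then dnu (fun c => X ((c, i'), s')) c μ else 0 := by
  by_cases h : i = i' ∧ s = s'
  · obtain ⟨rfl, rfl⟩ := h
    rw [if_pos ⟨rfl, rfl⟩]
    simp only [nu, Derivation.leibniz, Derivation.leibniz_pow, pderiv_X]
    fin_cases c
    · simp [dnu]
      ring
    · simp [dnu]
      ring
    · simp [dnu]
      ring
  · rw [if_neg h]
    simp only [nu, Derivation.leibniz, Derivation.leibniz_pow, pderiv_X]
    have hne : ∀ c c' : Fin 3, (((c, i), s) : Idx) ≠ ((c', i'), s') := by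
      intro c c' hc
      simp only [Prod.mk.injEq] at hc
      exact h ⟨hc.1.2, hc.2⟩
    simp [hne]

theorem nu_U_eq (s : Fin 2) (k : Fin 3) (μ : Fin 10) :
    (nu (U s k) μ : MvPolynomial Idx (MvPolynomial (Fin 3 × Fin 10) ℤ)) = C (nu (U s k) μ) := by
  rw [map_nu]
  congr 1
  ext1 c
  exact (map_U _ _ _ _).symm

theorem pderiv_f (v j : Idx) :
    pderiv v (f j) = if v.2 = j.2 then
      C (X (j.1.1, v.1.2)) * dnu (fun c => X ((c, v.1.2), v.2)) v.1.1 j.1.2 else 0 := by
  obtain ⟨⟨c, i⟩, s⟩ := v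
  obtain ⟨⟨k, μ⟩, s'⟩ := j
  unfold f
  rw [map_sub, nu_U_eq, pderiv_C, sub_zero, map_sum]
  simp only [pderiv_C_mul, pderiv_nu]
  by_cases h : s = s'
  · subst h
    simp
  · simp [h]

open Pool.Agent.LibGenericSolve in
theorem ev_pderiv_f {K : Type} [CommRing K] (s : Fin 3 × Fin 10 → K) (x : Idx → K) (v j : Idx) :
    ev s x (pderiv v (f j)) = if v.2 = j.2 then
      s (j.1.1, v.1.2) * dnu (fun c => x ((c, v.1.2), v.2)) v.1.1 j.1.2 else 0 := by
  rw [pderiv_f]
  split_ifs
  · rw [map_mul, map_dnu]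
    simp [ev]
  · simp

/-! ### The solution over the field with eleven elements -/

instance : Fact (Nat.Prime 11) := ⟨by norm_num⟩

def a0 : Fin 3 × Fin 10 → ZMod 11 := fun ki =>
  (![![9, 7, 2, 4, 8, 7, 3, 3, 0, 7],
    ![6, 8, 5, 0, 10, 4, 8, 7, 1, 8],
    ![10, 7, 9, 5, 5, 1, 10, 0, 5, 2]] :
    Fin 3 → Fin 10 → ZMod 11) ki.1 ki.2

def q0 : Fin 2 → Fin 10 → Fin 3 → ZMod 11 :=
  ![![![9, 2, 3],
    ![10, 0, 1],
    ![8, 3, 3],
    ![9, 7, 8],
    ![3, 2, 3],
    ![2, 6, 7],
    ![8, 2, 3],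
    ![4, 3, 3],
    ![5, 6, 7],
    ![7, 0, 1]],
   ![![2, 5, 7],
    ![1, 8, 7],
    ![6, 8, 0],
    ![7, 5, 5],
    ![4, 0, 1],
    ![8, 10, 9],
    ![0, 5, 8],
    ![2, 10, 6],
    ![0, 9, 8],
    ![10, 3, 6]]]

def x0 : Idx → ZMod 11 := fun v => q0 v.2 v.1.2 v.1.1

/-- Table lookup in a number written in base sixteen. -/
def entry (M : ℕ) (x y : Fin 3 × Fin 10) : ℕ :=
  M / 16 ^ (30 * (10 * x.1.val + x.2.val) + (10 * y.1.val + y.2.val)) % 16

def Jt : Fin 2 → ℕ := ![0x6000600a002000200700a000a00200924097040047304803000000000000000000000025803702004a506304006a7076020078a0a7060043101405004730610400561024050065a097060035902801006a7045020078a01406003a30570900000000000098904a0500184037040032109a0100a370840700a0008007002000600800a0008007006a701407008620590200193028030002000300a00800010070070005002003210a3040057902503000000000000000000000085207302005a403604002aa091020068805306005330680500579032040096301805002580a3060015501501002aa02a020068806806001a908309000000000000385029050048107304001230a9010073a04807007000400700800030080070004007002aa0680700a6608702004990150300000200608000080020a0000700a060000314931000059345900000000000000000000000088833600005556610000257716000064aa37000057118400005936210000931284000028a937000018925300002574a6000064a18700001535350000000000000034949400004443310000111993000077788a000070080a0000800602000070080a000025718a0000a3257600004a3259,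
  0x767095020062603908008a804107003590000000514000000000000000000000000000847038060058306501006880000000722000000049900000001410130900454041030076707a080040007003008000300600200090070018409a0300000000000032105809000040030500001009040000700806006380a10700a5602908006380a10700778051070022703502003350a20300066a0aa02002270770800aa202207001550000000911000000000000000000000000000a4a075060098903a01002820000000626000000059500000004430660900551022030066a09908005000900300a0007006008000a007004810a90300000000000012308509000010060500003007040000a0050600232052070075701708002320520700672082070082a07a020013405403000006379a600002163720000a5842a00001890000000964000000000000000000000000000a2735700009436a30000248000000061200000005a900000004211650000584429000063779200005007090000a00307000080090a0000444999000000000000001115550000004064000000107100000070570000278a2a00007862720000278a2a000069852a00008173a60000175a49]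

def Lt : Fin 2 → ℕ := ![0x945856608400000000000000000000000000000051424770210000000000a62a29422994a30a4aa964354650a950113a7268a1845853989483754251000000000000000000005142477021081604159471432396a8307a531453637811815a272821179585336937197108a69a339957328364944704a2331659935a5505691080802637919330036494148208873035654002056a55722911171496443751303038a74727a6322032197a96964845057882a7778207815a6679455210328224270939947a564692762891359649a65a5858169095370aaaa8778571aa540777579970782a621732026184686194a27702505867a0219851000a3546aa34a495265324774a8482a96014951221234316833392a9473726306a750472326254873189924647766412949128548a4084282830a497131305208718217a3764168783009291608200066738766988250607a5795a5087550900a89a8268191a67823544994594513a7aa57a964a51514a2738122364a4a2991a5a7a92583468792a20571338897272878099256185660931976884a430790a4168553961292869714304a5913235981397799083982992a8888611375191266001279a53388043184693,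
  0x2a2a349066000000000000000000000000000000686891507700000000002082492741558041a7778444552558481a60a76899110488487a8797493a000000000000000000006868915077863a22575937638867842a800a195aaa46669a72a020311114396337476090683409403285037368a6a322135571491194373a671097a5570931519612504854149523258371127965a9806353a084a178930a4241aa0667069308058656730770728437a28028429139a5a058850000000000000000000000000000001379709aa90000000000165671209a06249362a3221212aa0041a99785633081899a4877686613960000000000000000000039a5a0588528588a553996a96536923821445740011023126877063129304708203850209497a06007311981038769787aa6226185674a004205a33508088145893664782491895823474526a7098a616601a16063014028a5909832471aa002111659631262539a8772503272039181095109a785435944025a31990920991325a0a9786815a226a061a06307849677837185041522629a35a911a020847612000000000000000000000000000000a0208476120000000000000000000000000000007080a56248]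

theorem J_eq : ∀ (s : Fin 2) (x y : Fin 3 × Fin 10), ((entry (Jt s) x y : ℕ) : ZMod 11) =
    a0 (y.1, x.2) * dnu (q0 s x.2) x.1 y.2 := by
  decide +kernel

theorem LJ_eq : ∀ (s : Fin 2) (x y : Fin 3 × Fin 10),
    (∑ z : Fin 3 × Fin 10, entry (Lt s) x z * entry (Jt s) z y) % 11 = if x = y then 1 else 0 := by
  decide +kernel

theorem x0_sol : ∀ (k : Fin 3) (μ : Fin 10) (s : Fin 2),
    (∑ i : Fin 10, a0 (k, i) * nu (q0 s i) μ) - nu (U s k) μ = 0 := by
  decide +kernel

def ni0 : Matrix (Fin 10) (Fin 10) (ZMod 11) :=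
  ![![5, 6, 0, 6, 3, 5, 9, 2, 3, 10],
    ![7, 6, 8, 5, 5, 7, 2, 5, 7, 7],
    ![4, 5, 3, 2, 10, 8, 1, 9, 6, 9],
    ![3, 2, 8, 0, 8, 10, 6, 1, 10, 5],
    ![10, 4, 10, 7, 8, 5, 7, 10, 5, 5],
    ![1, 0, 8, 6, 10, 8, 8, 0, 8, 1],
    ![0, 0, 8, 9, 7, 7, 8, 1, 7, 10],
    ![8, 3, 7, 9, 0, 10, 3, 4, 10, 0],
    ![7, 9, 6, 5, 4, 4, 1, 7, 3, 5],
    ![0, 6, 7, 6, 10, 9, 2, 10, 9, 2]]

def ni1 : Matrix (Fin 10) (Fin 10) (ZMod 11) :=
  ![![9, 4, 3, 8, 1, 1, 6, 8, 10, 10],
    ![7, 8, 4, 3, 6, 5, 8, 5, 4, 7],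
    ![2, 6, 8, 0, 4, 8, 5, 9, 7, 9],
    ![4, 7, 3, 9, 4, 8, 0, 1, 1, 5],
    ![8, 2, 8, 10, 10, 4, 10, 0, 7, 5],
    ![7, 5, 7, 6, 1, 0, 4, 2, 7, 1],
    ![3, 7, 6, 6, 4, 8, 8, 8, 3, 10],
    ![3, 1, 3, 10, 0, 6, 7, 7, 2, 0],
    ![0, 1, 5, 8, 0, 9, 1, 8, 5, 5],
    ![7, 9, 8, 5, 3, 4, 8, 4, 3, 2]]

def h0 : Matrix (Fin 10) (Fin 10) (ZMod 11) :=
  ![![10, 4, 1, 1, 6, 1, 6, 0, 4, 0],
    ![0, 3, 4, 4, 7, 7, 6, 5, 7, 0],
    ![4, 3, 9, 8, 8, 9, 6, 3, 8, 0],
    ![0, 2, 10, 3, 2, 1, 7, 9, 2, 0],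
    ![10, 5, 6, 8, 0, 6, 0, 4, 9, 0],
    ![4, 5, 8, 0, 6, 10, 5, 1, 1, 0],
    ![0, 9, 3, 0, 5, 8, 2, 2, 7, 0],
    ![3, 9, 4, 6, 5, 4, 2, 7, 7, 0],
    ![10, 6, 9, 8, 6, 3, 10, 9, 4, 0],
    ![4, 10, 0, 5, 2, 6, 1, 9, 7, 1]]

def bi0 : Matrix (Fin 7) (Fin 7) (ZMod 11) :=
  ![![2, 8, 9, 7, 4, 7, 8],
    ![0, 5, 6, 6, 0, 3, 3],
    ![4, 5, 2, 1, 0, 10, 10],
    ![3, 7, 1, 3, 5, 7, 5],
    ![4, 9, 3, 6, 8, 0, 9],
    ![9, 10, 7, 5, 1, 1, 4],
    ![6, 7, 10, 10, 8, 2, 3]]

theorem ni0_eq : ∀ i j : Fin 10, ∑ k : Fin 10, ni0 i k * nu (q0 0 j) k = if i = j then 1 else 0 := by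
  decide +kernel

theorem ni1_eq : ∀ i j : Fin 10, ∑ k : Fin 10, ni1 i k * nu (q0 1 j) k = if i = j then 1 else 0 := by
  decide +kernel

theorem h0_eq : ∀ i j : Fin 10, ∑ k : Fin 10, h0 i k * nu (q0 0 j) k = nu (q0 1 j) i := by
  decide +kernel

theorem bi0_eq : ∀ i j : Fin 7, ∑ k : Fin 7, bi0 i k * Bm h0 k j = if i = j then 1 else 0 := by
  decide +kernel

theorem det_J_ne : (Matrix.of fun i j : Idx =>
    Pool.Agent.LibGenericSolve.ev a0 x0 (pderiv (id i) (f j))).det ≠ 0 := by
  have h1 : (Matrix.of fun i j : Idx =>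
      Pool.Agent.LibGenericSolve.ev a0 x0 (pderiv (id i) (f j))) =
      Matrix.blockDiagonal (fun s : Fin 2 => Matrix.of fun x y : Fin 3 × Fin 10 =>
        ((entry (Jt s) x y : ℕ) : ZMod 11)) := by
    ext i j
    rw [Matrix.of_apply, id_eq, ev_pderiv_f, Matrix.blockDiagonal_apply]
    split_ifs
    · rw [Matrix.of_apply, J_eq]
      rfl
    · rfl
  rw [h1, Matrix.det_blockDiagonal, Finset.prod_ne_zero_iff]
  intro s _
  apply Matrix.det_ne_zero_of_left_inverse
    (B := Matrix.of fun x y : Fin 3 × Fin 10 => ((entry (Lt s) x y : ℕ) : ZMod 11))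
  ext x y
  rw [Matrix.mul_apply, Matrix.one_apply]
  have h2 := congrArg (fun n : ℕ => (n : ZMod 11)) (LJ_eq s x y)
  simp only [ZMod.natCast_mod, Nat.cast_sum, Nat.cast_mul] at h2
  simp only [Matrix.of_apply]
  rw [h2]
  split_ifs <;> simp

theorem det_N0_ne : (Nm (q0 0)).det ≠ 0 := by
  apply Matrix.det_ne_zero_of_left_inverse (B := ni0)
  ext i j
  rw [Matrix.mul_apply, Matrix.one_apply]
  exact ni0_eq i j

theorem det_N1_ne : (Nm (q0 1)).det ≠ 0 := by
  apply Matrix.det_ne_zero_of_left_inverse (B := ni1)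
  ext i j
  rw [Matrix.mul_apply, Matrix.one_apply]
  exact ni1_eq i j

theorem Hm_eq : Hm (q0 0) (q0 1) = (Nm (q0 0)).det • h0 := by
  have h1 : h0 * Nm (q0 0) = Nm (q0 1) := by
    ext i j
    rw [Matrix.mul_apply]
    exact h0_eq i j
  unfold Hm
  rw [← h1, Matrix.mul_assoc, Matrix.mul_adjugate]
  simp

theorem Bm_smul {R : Type} [CommRing R] (d : R) (H : Matrix (Fin 10) (Fin 10) R) :
    Bm (d • H) = (d ^ 2) • Bm H := by
  ext k c
  simp only [Bm, Matrix.smul_apply, Matrix.of_apply, smul_eq_mul, Finset.mul_sum]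
  refine Finset.sum_congr rfl fun x _ => Finset.sum_congr rfl fun y _ => ?_
  split_ifs
  · ring
  · simp

theorem delta0_ne : delta (q0 0) (q0 1) ≠ 0 := by
  unfold delta
  refine mul_ne_zero (mul_ne_zero det_N0_ne det_N1_ne) ?_
  rw [Hm_eq, Bm_smul, Matrix.det_smul]
  refine mul_ne_zero (pow_ne_zero _ (pow_ne_zero _ det_N0_ne)) ?_
  apply Matrix.det_ne_zero_of_left_inverse (B := bi0)
  ext i j
  rw [Matrix.mul_apply, Matrix.one_apply]
  exact bi0_eq i j

/-- For parameters outside a hypersurface there are two solutions satisfying the open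
condition. -/
theorem exists_two_solutions :
    ∃ g : MvPolynomial (Fin 3 × Fin 10) ℤ, g ≠ 0 ∧ ∀ s : Fin 3 × Fin 10 → ℂ,
      eval₂Hom (Int.castRingHom ℂ) s g ≠ 0 →
        ∃ q q' : Fin 10 → Fin 3 → ℂ,
          (∀ k μ, ∑ i : Fin 10, s (k, i) * nu (q i) μ = nu (U 0 k) μ) ∧
          (∀ k μ, ∑ i : Fin 10, s (k, i) * nu (q' i) μ = nu (U 1 k) μ) ∧
          delta q q' ≠ 0 := by
  obtain ⟨g, hg0, hg⟩ := Pool.Agent.LibGenericSolve.exists_generic_solution f id
    Function.injective_id
    (delta (fun i c => X ((c, i), 0)) (fun i c => X ((c, i), 1))) a0 x0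
    (fun j => by
      rw [ev_f]
      exact x0_sol j.1.1 j.1.2 j.2)
    det_J_ne
    (by
      rw [map_delta]
      simpa [Pool.Agent.LibGenericSolve.ev, x0] using delta0_ne)
  refine ⟨g, hg0, fun s hs => ?_⟩
  obtain ⟨x, hx, hδ⟩ := hg ℂ s hs
  refine ⟨fun i c => x ((c, i), 0), fun i c => x ((c, i), 1), ?_, ?_, ?_⟩
  · intro k μ
    have := hx ((k, μ), 0)
    rw [ev_f, sub_eq_zero] at this
    exact this
  · intro k μ
    have := hx ((k, μ), 1)
    rw [ev_f, sub_eq_zero] at this
    exact this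
  · rw [map_delta] at hδ
    simpa [Pool.Agent.LibGenericSolve.ev] using hδ

end Pool.Agent.HVeronese
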