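import Pool.Agent.HVeronese.Core

open MvPolynomial

namespace Pool.Agent.HVeronese

/-- Exponents of monomials of degree at most five in two variables. -/
abbrev I5 := {ab : Fin 6 × Fin 6 // ab.1.val + ab.2.val ≤ 5}

def mono (i : I5) : ℂ × ℂ → ℂ := fun p => p.1 ^ i.1.1.val * p.2 ^ i.1.2.val

/-- Functions of degree at most five. -/
def W5 : Submodule ℂ (ℂ × ℂ → ℂ) := Submodule.span ℂ (Set.range mono)

theorem mono_mem {a b : ℕ} (h : a + b ≤ 5) : (fun p : ℂ × ℂ => p.1 ^ a * p.2 ^ b) ∈ W5 :=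
  Submodule.subset_span ⟨⟨(⟨a, by omega⟩, ⟨b, by omega⟩), h⟩, rfl⟩

/-- If multiplication by a coordinate function preserves the span of the monomials of degree at
most five on `Z`, that coordinate takes finitely many values on `Z`. -/
theorem finite_coord (Z : Set (ℂ × ℂ)) (t : ℂ × ℂ → ℂ)
    (h : ∀ i : I5, ∃ G ∈ W5, ∀ p ∈ Z, t p * mono i p = G p) : (t '' Z).Finite := by
  have h' : ∀ i : I5, ∃ γ : I5 → ℂ, ∀ p ∈ Z, t p * mono i p = ∑ j, γ j * mono j p := by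
    intro i
    obtain ⟨G, hG, hGp⟩ := h i
    rw [W5, Submodule.mem_span_range_iff_exists_fun] at hG
    obtain ⟨γ, hγ⟩ := hG
    refine ⟨γ, fun p hp => ?_⟩
    rw [hGp p hp, ← hγ]
    simp [Finset.sum_apply]
  choose γ hγ using h'
  let A : Matrix I5 I5 ℂ := Matrix.of γ
  have hfin : Set.Finite {μ : ℂ | Module.End.HasEigenvalue (Matrix.toLin' A) μ} :=
    Module.End.finite_hasEigenvalue _
  refine hfin.subset ?_
  rintro _ ⟨p, hp, rfl⟩
  apply Module.End.hasEigenvalue_of_hasEigenvector (x := fun i => mono i p)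
  rw [Module.End.hasEigenvector_iff, Module.End.mem_eigenspace_iff]
  constructor
  · ext i
    simp only [Matrix.toLin'_apply, Matrix.mulVec, dotProduct, A, Matrix.of_apply, Pi.smul_apply,
      smul_eq_mul]
    exact (hγ i p hp).symm
  · intro h0
    have := congrFun h0 ⟨(0, 0), by simp⟩
    simp [mono] at this

theorem finite_of_top (Z : Set (ℂ × ℂ))
    (h : ∀ c : Fin 7, ∃ G ∈ W5, ∀ p ∈ Z, p.1 ^ (6 - c.val) * p.2 ^ c.val = G p) : Z.Finite := by
  have key : ∀ a b : ℕ, a + b ≤ 6 → ∃ G ∈ W5, ∀ p ∈ Z, p.1 ^ a * p.2 ^ b = G p := by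
    intro a b hab
    rcases Nat.lt_or_ge (a + b) 6 with h1 | h1
    · exact ⟨_, mono_mem (a := a) (b := b) (by omega), fun p _ => rfl⟩
    · obtain ⟨G, hG, hGp⟩ := h ⟨b, by omega⟩
      refine ⟨G, hG, fun p hp => ?_⟩
      rw [← hGp p hp]
      obtain rfl : a = 6 - b := by omega
      rfl
  have hx : (Prod.fst '' Z).Finite := by
    apply finite_coord Z Prod.fst
    intro i
    obtain ⟨G, hG, hGp⟩ := key (i.1.1.val + 1) i.1.2.val (by have := i.2; omega)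
    refine ⟨G, hG, fun p hp => ?_⟩
    rw [← hGp p hp, mono]
    ring
  have hy : (Prod.snd '' Z).Finite := by
    apply finite_coord Z Prod.snd
    intro i
    obtain ⟨G, hG, hGp⟩ := key i.1.1.val (i.1.2.val + 1) (by have := i.2; omega)
    refine ⟨G, hG, fun p hp => ?_⟩
    rw [← hGp p hp, mono]
    ring
  refine (hx.prod hy).subset ?_
  rintro p hp
  exact ⟨⟨p, hp, rfl⟩, ⟨p, hp, rfl⟩⟩

/-- The pulled back quadrics. -/
def Qd (H : Matrix (Fin 10) (Fin 10) ℂ) (k : Fin 7) (v : Fin 3 → ℂ) : ℂ :=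
  (H.mulVec (nu v)) 0 * (H.mulVec (nu v)) (qb k) -
    (H.mulVec (nu v)) (qc k) * (H.mulVec (nu v)) (qd k)

theorem Qd_expand (H : Matrix (Fin 10) (Fin 10) ℂ) (k : Fin 7) (v : Fin 3 → ℂ) :
    Qd H k v = ∑ μ : Fin 10, ∑ μ' : Fin 10,
      (H 0 μ * H (qb k) μ' - H (qc k) μ * H (qd k) μ') * (nu v μ * nu v μ') := by
  unfold Qd
  simp only [Matrix.mulVec, dotProduct]
  rw [Finset.sum_mul_sum, Finset.sum_mul_sum, ← Finset.sum_sub_distrib]
  refine Finset.sum_congr rfl fun μ _ => ?_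
  rw [← Finset.sum_sub_distrib]
  refine Finset.sum_congr rfl fun μ' _ => ?_
  ring

/-- On the line at infinity the pulled back quadrics are the rows of `Bm`. -/
theorem Qd_infty (H : Matrix (Fin 10) (Fin 10) ℂ) (k : Fin 7) (x y : ℂ) :
    Qd H k ![x, y, 0] = ∑ c : Fin 7, Bm H k c * (x ^ (6 - c.val) * y ^ c.val) := by
  have h1 : ∀ i, (H.mulVec (nu ![x, y, 0])) i =
      H i 0 * x ^ 3 + H i 1 * (x ^ 2 * y) + H i 3 * (x * y ^ 2) + H i 6 * y ^ 3 := by
    intro i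
    simp [Matrix.mulVec, dotProduct, Fin.sum_univ_succ, nu, ex]
    ring
  unfold Qd
  rw [h1, h1, h1, h1]
  simp [Bm, zi, Fin.sum_univ_succ]
  ring

theorem ex_sum : ∀ μ : Fin 10, ex μ 0 + ex μ 1 + ex μ 2 = 3 := by decide

theorem low_mem (H : Matrix (Fin 10) (Fin 10) ℂ) (k : Fin 7) :
    (fun p : ℂ × ℂ => Qd H k ![p.1, p.2, 1] - Qd H k ![p.1, p.2, 0]) ∈ W5 := by
  have h1 : (fun p : ℂ × ℂ => Qd H k ![p.1, p.2, 1] - Qd H k ![p.1, p.2, 0]) =
      ∑ μ : Fin 10, ∑ μ' : Fin 10, (H 0 μ * H (qb k) μ' - H (qc k) μ * H (qd k) μ') •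
        (fun p : ℂ × ℂ => nu ![p.1, p.2, 1] μ * nu ![p.1, p.2, 1] μ' -
          nu ![p.1, p.2, 0] μ * nu ![p.1, p.2, 0] μ') := by
    ext p
    rw [Qd_expand, Qd_expand, ← Finset.sum_sub_distrib]
    simp only [Finset.sum_apply, Pi.smul_apply, smul_eq_mul]
    refine Finset.sum_congr rfl fun μ _ => ?_
    rw [← Finset.sum_sub_distrib]
    refine Finset.sum_congr rfl fun μ' _ => ?_
    ring
  rw [h1]
  refine Submodule.sum_mem _ fun μ _ => Submodule.sum_mem _ fun μ' _ => Submodule.smul_mem _ _ ?_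
  by_cases hz : ex μ 2 = 0 ∧ ex μ' 2 = 0
  · have : (fun p : ℂ × ℂ => nu ![p.1, p.2, 1] μ * nu ![p.1, p.2, 1] μ' -
          nu ![p.1, p.2, 0] μ * nu ![p.1, p.2, 0] μ') = 0 := by
      ext p
      simp [nu, hz.1, hz.2]
    rw [this]
    exact Submodule.zero_mem _
  · have hpos : 0 < ex μ 2 + ex μ' 2 := by
      by_contra hcon
      exact hz (by omega)
    have : (fun p : ℂ × ℂ => nu ![p.1, p.2, 1] μ * nu ![p.1, p.2, 1] μ' -
          nu ![p.1, p.2, 0] μ * nu ![p.1, p.2, 0] μ') =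
          fun p : ℂ × ℂ => p.1 ^ (ex μ 0 + ex μ' 0) * p.2 ^ (ex μ 1 + ex μ' 1) := by
      ext p
      have h0 : (0 : ℂ) ^ ex μ 2 * (0 : ℂ) ^ ex μ' 2 = 0 := by
        rw [← pow_add]
        exact zero_pow hpos.ne'
      have h2 : nu ![p.1, p.2, 0] μ * nu ![p.1, p.2, 0] μ' = 0 := by
        have e0 : (![p.1, p.2, 0] : Fin 3 → ℂ) 0 = p.1 := rfl
        have e1 : (![p.1, p.2, 0] : Fin 3 → ℂ) 1 = p.2 := rfl
        have e2 : (![p.1, p.2, 0] : Fin 3 → ℂ) 2 = 0 := rfl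
        simp only [nu, e0, e1, e2]
        linear_combination (p.1 ^ ex μ 0 * p.2 ^ ex μ 1 * p.1 ^ ex μ' 0 * p.2 ^ ex μ' 1) * h0
      rw [h2, sub_zero]
      simp [nu, pow_add]
      ring
    rw [this]
    apply mono_mem
    have h3 := ex_sum μ
    have h4 := ex_sum μ'
    omega

theorem finite_main (H : Matrix (Fin 10) (Fin 10) ℂ) (hB : (Bm H).det ≠ 0) :
    {p : ℂ × ℂ | ∀ k, Qd H k ![p.1, p.2, 1] = 0}.Finite := by
  apply finite_of_top
  intro c
  have hBi : (Bm H)⁻¹ * Bm H = 1 := Matrix.nonsing_inv_mul _ (isUnit_iff_ne_zero.mpr hB)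
  refine ⟨∑ k : Fin 7, (-((Bm H)⁻¹ c k)) •
    (fun p : ℂ × ℂ => Qd H k ![p.1, p.2, 1] - Qd H k ![p.1, p.2, 0]), ?_, ?_⟩
  · exact Submodule.sum_mem _ fun k _ => Submodule.smul_mem _ _ (low_mem H k)
  · intro p hp
    have hp' : ∀ k, Qd H k ![p.1, p.2, 1] = 0 := hp
    simp only [Finset.sum_apply, Pi.smul_apply, smul_eq_mul, hp', zero_sub, neg_mul, mul_neg,
      neg_neg]
    have h1 : ((Bm H)⁻¹ * Bm H).mulVec (fun c : Fin 7 => p.1 ^ (6 - c.val) * p.2 ^ c.val) c =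
        p.1 ^ (6 - c.val) * p.2 ^ c.val := by
      rw [hBi, Matrix.one_mulVec]
    rw [← h1, ← Matrix.mulVec_mulVec]
    simp only [Matrix.mulVec, dotProduct, Qd_infty]

theorem infty_main (H : Matrix (Fin 10) (Fin 10) ℂ) (hB : (Bm H).det ≠ 0) (x y : ℂ)
    (h : ∀ k, Qd H k ![x, y, 0] = 0) : x = 0 ∧ y = 0 := by
  have h1 : (Bm H).mulVec (fun c : Fin 7 => x ^ (6 - c.val) * y ^ c.val) = 0 := by
    ext k
    have := h k
    rw [Qd_infty] at this
    simpa [Matrix.mulVec, dotProduct] using this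
  have h2 : (fun c : Fin 7 => x ^ (6 - c.val) * y ^ c.val) = 0 := by
    by_contra hne
    exact hB (Matrix.exists_mulVec_eq_zero_iff.mp ⟨_, hne, h1⟩)
  constructor
  · simpa using congrFun h2 0
  · simpa using congrFun h2 6

end Pool.Agent.HVeronese
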