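import Pool.Agent.HVeronese.Core

open MvPolynomial

namespace Pool.Agent.HVeronese

/-- Weights recording the multidegree. -/
abbrev wt (m N : ℕ) : Fin m × Fin N → (Fin m → ℕ) := fun ij => Pi.single ij.1 1

/-- Substitution `X (i, j) ↦ p i j * X i`. -/
noncomputable def scal {m N : ℕ} (p : Fin m → Fin N → ℂ) :
    MvPolynomial (Fin m × Fin N) ℂ →ₐ[ℂ] MvPolynomial (Fin m) ℂ :=
  aeval fun ij => C (p ij.1 ij.2) * X ij.1

theorem eval_scal {m N : ℕ} (p : Fin m → Fin N → ℂ) (l : Fin m → ℂ)
    (F : MvPolynomial (Fin m × Fin N) ℂ) :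
    eval l (scal p F) = eval (fun ij => l ij.1 * p ij.1 ij.2) F := by
  have : (eval l).comp (scal p : MvPolynomial (Fin m × Fin N) ℂ →+* MvPolynomial (Fin m) ℂ) =
      eval (fun ij => l ij.1 * p ij.1 ij.2) := by
    apply MvPolynomial.ringHom_ext'
    · ext x
      simp [scal]
    · intro ij
      simp [scal, mul_comm]
  exact RingHom.congr_fun this F

theorem scal_monomial {m N : ℕ} (p : Fin m → Fin N → ℂ) (s : Fin m × Fin N →₀ ℕ) (c : ℂ) :
    scal p (monomial s c) =
      monomial (Finsupp.equivFunOnFinite.symm (Finsupp.weight (wt m N) s))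
        (c * s.prod fun ij n => p ij.1 ij.2 ^ n) := by
  have h1 : scal p (monomial s c) = C c * s.prod fun ij n => (C (p ij.1 ij.2) * X ij.1) ^ n := by
    rw [scal, aeval_monomial]
    rfl
  rw [h1]
  have h2 : (s.prod fun ij n => ((C (p ij.1 ij.2) : MvPolynomial (Fin m) ℂ) * X ij.1) ^ n) =
      C (s.prod fun ij n => p ij.1 ij.2 ^ n) *
        monomial (Finsupp.equivFunOnFinite.symm (Finsupp.weight (wt m N) s)) (1 : ℂ) := by
    simp only [mul_pow, Finsupp.prod_mul]
    congr 1
    · simp [Finsupp.prod]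
    · rw [Finsupp.weight_apply]
      have h3 : Finsupp.equivFunOnFinite.symm (s.sum fun i c => c • wt m N i) =
          s.sum fun ij n => Finsupp.single ij.1 n := by
        ext i
        simp only [Finsupp.sum, Finsupp.equivFunOnFinite_symm_apply_apply, Finset.sum_apply,
          Finsupp.finsetSum_apply]
        refine Finset.sum_congr rfl fun ij _ => ?_
        simp [wt, Finsupp.single_apply, Pi.single_apply, eq_comm]
      rw [h3]
      simp only [Finsupp.sum, Finsupp.prod]
      rw [monomial_sum_one]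
      refine Finset.prod_congr rfl fun ij _ => ?_
      rw [X_pow_eq_monomial]
  rw [h2, ← mul_assoc, ← C_mul, C_mul_monomial, mul_one]

theorem coeff_scal {m N : ℕ} (p : Fin m → Fin N → ℂ) (d : Fin m →₀ ℕ)
    (F : MvPolynomial (Fin m × Fin N) ℂ) :
    coeff d (scal p F) = eval (fun ij => p ij.1 ij.2)
      (weightedHomogeneousComponent (wt m N) (d : Fin m → ℕ) F) := by
  classical
  induction F using MvPolynomial.induction_on' with
  | monomial s c =>
    rw [scal_monomial, coeff_monomial, weightedHomogeneousComponent_of_mem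
      (n := Finsupp.weight (wt m N) s) (isWeightedHomogeneous_monomial _ _ _ rfl)]
    by_cases h : Finsupp.equivFunOnFinite.symm (Finsupp.weight (wt m N) s) = d
    · have h' : (d : Fin m → ℕ) = Finsupp.weight (wt m N) s := by
        rw [← h]
        rfl
      rw [if_pos h, if_pos h', eval_monomial]
    · have h' : (d : Fin m → ℕ) ≠ Finsupp.weight (wt m N) s := by
        intro hd
        apply h
        rw [← hd]
        ext
        rfl
      rw [if_neg h, if_neg h', map_zero]
  | add F G hF hG =>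
    simp only [map_add, coeff_add, hF, hG]

theorem exists_eval_ne_zero {σ : Type} [Finite σ] (F : MvPolynomial σ ℂ) (hF : F ≠ 0) :
    ∃ x : σ → ℂ, eval x F ≠ 0 := by
  by_contra h
  push Not at h
  exact hF (MvPolynomial.funext fun x => by simpa using h x)

theorem exists_multihomogeneous {m N : ℕ} (F₀ : MvPolynomial (Fin m × Fin N) ℂ) (hF₀ : F₀ ≠ 0) :
    ∃ (d : Fin m → ℕ) (F : MvPolynomial (Fin m × Fin N) ℂ), F ≠ 0 ∧
      F.IsWeightedHomogeneous (wt m N) d ∧
      ∀ p : Fin m → Fin N → ℂ, eval (fun ij => p ij.1 ij.2) F ≠ 0 →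
        ∃ l : Fin m → ℂ, (∀ i, l i ≠ 0) ∧ eval (fun ij => l ij.1 * p ij.1 ij.2) F₀ ≠ 0 := by
  classical
  obtain ⟨x, hx⟩ := exists_eval_ne_zero F₀ hF₀
  -- some component is nonzero
  obtain ⟨d, hd⟩ : ∃ d : Fin m → ℕ, weightedHomogeneousComponent (wt m N) d F₀ ≠ 0 := by
    by_contra h
    push Not at h
    apply hF₀
    ext s
    have := congrArg (coeff s) (h (Finsupp.weight (wt m N) s))
    rw [coeff_weightedHomogeneousComponent, if_pos rfl] at this
    simpa using this
  refine ⟨d, weightedHomogeneousComponent (wt m N) d F₀, hd,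
    weightedHomogeneousComponent_isWeightedHomogeneous _ _, ?_⟩
  intro p hp
  have h1 : scal p F₀ ≠ 0 := by
    intro h0
    apply hp
    have := coeff_scal p (Finsupp.equivFunOnFinite.symm d) F₀
    rw [h0, coeff_zero] at this
    exact this.symm
  have h2 : scal p F₀ * ∏ i, X i ≠ 0 := by
    refine mul_ne_zero h1 ?_
    rw [Finset.prod_ne_zero_iff]
    intro i _
    exact X_ne_zero i
  obtain ⟨l, hl⟩ := exists_eval_ne_zero _ h2
  rw [map_mul, map_prod] at hl
  have h3 := right_ne_zero_of_mul hl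
  rw [Finset.prod_ne_zero_iff] at h3
  refine ⟨l, fun i => by simpa using h3 i (Finset.mem_univ i), ?_⟩
  rw [← eval_scal]
  exact left_ne_zero_of_mul hl

/-! ### From thirteen points to parameters -/

/-- The matrix whose columns are the first ten points. -/
def Pm {R : Type} (p : Fin 13 → Fin 10 → R) : Matrix (Fin 10) (Fin 10) R :=
  Matrix.of fun μ i => p (Fin.castAdd 3 i) μ

/-- Numerators of the coordinates of the last three points in the basis given by the first ten. -/
noncomputable def Av {R : Type} [CommRing R] (p : Fin 13 → Fin 10 → R) (ki : Fin 3 × Fin 10) : R :=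
  (Pm p).adjugate.mulVec (p (Fin.natAdd 10 ki.1)) ki.2

theorem map_Pm {R S : Type} [CommRing R] [CommRing S] (φ : R →+* S) (p : Fin 13 → Fin 10 → R) :
    (Pm p).map φ = Pm (fun i j => φ (p i j)) := rfl

theorem map_det_Pm {R S : Type} [CommRing R] [CommRing S] (φ : R →+* S)
    (p : Fin 13 → Fin 10 → R) : φ (Pm p).det = (Pm (fun i j => φ (p i j))).det := by
  rw [RingHom.map_det, RingHom.mapMatrix_apply, map_Pm]

theorem map_Av {R S : Type} [CommRing R] [CommRing S] (φ : R →+* S) (p : Fin 13 → Fin 10 → R)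
    (ki : Fin 3 × Fin 10) : φ (Av p ki) = Av (fun i j => φ (p i j)) ki := by
  unfold Av
  rw [← map_Pm φ p]
  have h := RingHom.map_adjugate φ (Pm p)
  simp only [RingHom.mapMatrix_apply] at h
  rw [← h]
  simp [Matrix.mulVec, dotProduct]

/-- The generic points. -/
noncomputable def Xp : Fin 13 → Fin 10 → MvPolynomial (Fin 13 × Fin 10) ℂ := fun i j => X (i, j)

theorem exists_homogenization (g : MvPolynomial (Fin 3 × Fin 10) ℤ) :
    ∃ (e : ℕ) (G : MvPolynomial (Fin 13 × Fin 10) ℂ), ∀ p : Fin 13 → Fin 10 → ℂ,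
      (Pm p).det ≠ 0 → eval (fun ij => p ij.1 ij.2) G =
        (Pm p).det ^ e * eval₂Hom (Int.castRingHom ℂ) (fun ki => Av p ki / (Pm p).det) g := by
  induction g using MvPolynomial.induction_on with
  | C a => exact ⟨0, C (a : ℂ), fun p _ => by simp⟩
  | add g₁ g₂ h₁ h₂ =>
    obtain ⟨e₁, G₁, h₁⟩ := h₁
    obtain ⟨e₂, G₂, h₂⟩ := h₂
    refine ⟨e₁ + e₂, (Pm Xp).det ^ e₂ * G₁ + (Pm Xp).det ^ e₁ * G₂, fun p hp => ?_⟩
    rw [map_add, map_add, map_mul, map_mul, map_pow, map_pow, h₁ p hp, h₂ p hp, map_det_Pm]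
    simp only [Xp, eval_X]
    ring
  | mul_X g ki h =>
    obtain ⟨e, G, h⟩ := h
    refine ⟨e + 1, G * Av Xp ki, fun p hp => ?_⟩
    rw [map_mul, map_mul, h p hp, map_Av]
    simp only [Xp, eval_X]
    rw [eval₂Hom_X']
    field_simp
    ring

theorem exists_F0 (g : MvPolynomial (Fin 3 × Fin 10) ℤ) (hg : g ≠ 0) :
    ∃ F₀ : MvPolynomial (Fin 13 × Fin 10) ℂ, F₀ ≠ 0 ∧ ∀ p : Fin 13 → Fin 10 → ℂ,
      eval (fun ij => p ij.1 ij.2) F₀ ≠ 0 → (Pm p).det ≠ 0 ∧
        eval₂Hom (Int.castRingHom ℂ) (fun ki => Av p ki / (Pm p).det) g ≠ 0 := by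
  obtain ⟨e, G, hG⟩ := exists_homogenization g
  refine ⟨(Pm Xp).det * G, ?_, ?_⟩
  · -- choose parameters where `g` does not vanish
    have hg' : MvPolynomial.map (Int.castRingHom ℂ) g ≠ 0 := by
      intro h0
      apply hg
      apply MvPolynomial.map_injective (Int.castRingHom ℂ) (RingHom.injective_int _)
      rw [h0, map_zero]
    obtain ⟨a, ha⟩ := exists_eval_ne_zero _ hg'
    let p : Fin 13 → Fin 10 → ℂ := fun i => Fin.addCases (fun i : Fin 10 => Pi.single i 1)
      (fun k : Fin 3 => fun j => a (k, j)) i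
    have hP : Pm p = 1 := by
      ext μ i
      simp [Pm, p, Matrix.one_apply, Pi.single_apply]
    have hA : ∀ ki, Av p ki = a ki := by
      intro ki
      unfold Av
      rw [hP, Matrix.adjugate_one, Matrix.one_mulVec]
      simp [p]
    intro h0
    have h1 := congrArg (eval (fun ij : Fin 13 × Fin 10 => p ij.1 ij.2)) h0
    rw [map_mul, hG p (by rw [hP]; simp), map_det_Pm, map_zero] at h1
    simp only [Xp, eval_X] at h1
    change (Pm p).det * _ = 0 at h1
    rw [hP] at h1
    simp only [Matrix.det_one, one_mul, one_pow, div_one, hA] at h1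
    apply ha
    rw [eval_map]
    exact h1
  · intro p hp
    rw [map_mul, map_det_Pm] at hp
    simp only [Xp, eval_X] at hp
    have hd : (Pm p).det ≠ 0 := left_ne_zero_of_mul hp
    refine ⟨hd, ?_⟩
    have h2 := right_ne_zero_of_mul hp
    rw [hG p hd] at h2
    exact right_ne_zero_of_mul h2

end Pool.Agent.HVeronese
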