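import Pool.Agent.HVeronese.Finite
import Pool.Agent.HVeronese.Generic

open MvPolynomial
open scoped LinearAlgebra.Projectivization

namespace Pool.Agent.HVeronese

/-- Image of the cubic Veronese surface under a matrix. -/
def Vset (G : Matrix (Fin 10) (Fin 10) ℂ) : Set (ℙ ℂ (Fin 10 → ℂ)) :=
  {P | ∃ v : Fin 3 → ℂ, v ≠ 0 ∧ ∃ h : G.mulVec (nu v) ≠ 0, P = Projectivization.mk ℂ _ h}

theorem nu_smul (c : ℂ) (v : Fin 3 → ℂ) : nu (c • v) = c ^ 3 • nu v := by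
  ext μ
  simp only [nu, Pi.smul_apply, smul_eq_mul, mul_pow]
  have h := ex_sum μ
  have h2 : c ^ 3 = c ^ ex μ 0 * c ^ ex μ 1 * c ^ ex μ 2 := by rw [← pow_add, ← pow_add, h]
  rw [h2]
  ring

theorem nu_zero : nu (0 : Fin 3 → ℂ) = 0 := by
  have := nu_smul 0 0
  simpa using this

theorem nu_ne_zero {v : Fin 3 → ℂ} (h : nu v ≠ 0) : v ≠ 0 := by
  rintro rfl
  exact h nu_zero

/-- The quadrics vanish on multiples of Veronese vectors. -/
theorem quad_nu (k : Fin 7) (v : Fin 3 → ℂ) :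
    nu v 0 * nu v (qb k) - nu v (qc k) * nu v (qd k) = 0 := by
  fin_cases k <;> simp [qb, qc, qd, nu, ex] <;> ring

theorem Qd_smul (H : Matrix (Fin 10) (Fin 10) ℂ) (k : Fin 7) (c : ℂ) (v : Fin 3 → ℂ) :
    Qd H k (c • v) = c ^ 6 * Qd H k v := by
  unfold Qd
  rw [nu_smul, Matrix.mulVec_smul]
  simp only [Pi.smul_apply, smul_eq_mul]
  ring

section two

variable (M : Matrix (Fin 10) (Fin 10) ℂ) (q q' : Fin 10 → Fin 3 → ℂ)

theorem inter_finite (hM : M.det ≠ 0) (hδ : delta q q' ≠ 0) :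
    (Vset (M * (Nm q)⁻¹) ∩ Vset (M * (Nm q')⁻¹)).Finite := by
  classical
  have hB : (Bm (Hm q q')).det ≠ 0 := right_ne_zero_of_mul hδ
  have hN : (Nm q).det ≠ 0 := left_ne_zero_of_mul (left_ne_zero_of_mul hδ)
  have hN' : (Nm q').det ≠ 0 := right_ne_zero_of_mul (left_ne_zero_of_mul hδ)
  have hMu : IsUnit M.det := isUnit_iff_ne_zero.mpr hM
  have hNu : IsUnit (Nm q).det := isUnit_iff_ne_zero.mpr hN
  have hNu' : IsUnit (Nm q').det := isUnit_iff_ne_zero.mpr hN'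
  have hS := finite_main (Hm q q') hB
  let Φ : ℂ × ℂ → Set (ℙ ℂ (Fin 10 → ℂ)) := fun p =>
    {P | ∃ h : (M * (Nm q)⁻¹).mulVec (nu ![p.1, p.2, 1]) ≠ 0, P = Projectivization.mk ℂ _ h}
  have hΦ : ∀ p, (Φ p).Finite := by
    intro p
    apply Set.Subsingleton.finite
    rintro P ⟨h, rfl⟩ P' ⟨h', rfl⟩
    rfl
  refine (hS.biUnion fun p _ => hΦ p).subset ?_
  rintro P ⟨⟨v, hv, h, rfl⟩, ⟨v', hv', h', hP⟩⟩
  rw [Projectivization.mk_eq_mk_iff'] at hP
  obtain ⟨a, ha⟩ := hP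
  -- `H ν(v)` is a multiple of `ν(v')`
  have key : (Hm q q').mulVec (nu v) = ((Nm q).det * a) • nu v' := by
    have e1 : (Nm q * M⁻¹) * (M * (Nm q)⁻¹) = 1 := by
      rw [Matrix.mul_assoc, ← Matrix.mul_assoc M⁻¹, Matrix.nonsing_inv_mul _ hMu, Matrix.one_mul,
        Matrix.mul_nonsing_inv _ hNu]
    have e2 : (Nm q' * M⁻¹) * (M * (Nm q')⁻¹) = 1 := by
      rw [Matrix.mul_assoc, ← Matrix.mul_assoc M⁻¹, Matrix.nonsing_inv_mul _ hMu, Matrix.one_mul,
        Matrix.mul_nonsing_inv _ hNu']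
    have e3 : Hm q q' * (Nm q * M⁻¹) = (Nm q).det • (Nm q' * M⁻¹) := by
      unfold Hm
      rw [Matrix.mul_assoc, ← Matrix.mul_assoc (Nm q).adjugate, Matrix.adjugate_mul]
      simp
    calc (Hm q q').mulVec (nu v)
        = (Hm q q').mulVec (((Nm q * M⁻¹) * (M * (Nm q)⁻¹)).mulVec (nu v)) := by
          rw [e1, Matrix.one_mulVec]
      _ = (Hm q q' * (Nm q * M⁻¹)).mulVec ((M * (Nm q)⁻¹).mulVec (nu v)) := by
          simp only [Matrix.mulVec_mulVec, Matrix.mul_assoc]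
      _ = ((Nm q).det • (Nm q' * M⁻¹)).mulVec (a • (M * (Nm q')⁻¹).mulVec (nu v')) := by
          rw [e3, ha]
      _ = ((Nm q).det * a) • ((Nm q' * M⁻¹) * (M * (Nm q')⁻¹)).mulVec (nu v') := by
          rw [Matrix.mulVec_smul, Matrix.smul_mulVec, Matrix.mulVec_mulVec, smul_smul, mul_comm]
      _ = ((Nm q).det * a) • nu v' := by rw [e2, Matrix.one_mulVec]
  have hQ : ∀ k, Qd (Hm q q') k v = 0 := by
    intro k
    unfold Qd
    rw [key]
    simp only [Pi.smul_apply, smul_eq_mul]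
    have := quad_nu k v'
    linear_combination ((Nm q).det * a) ^ 2 * this
  have hv2 : v 2 ≠ 0 := by
    intro h0
    apply hv
    have hvv : v = ![v 0, v 1, 0] := by
      ext i
      fin_cases i
      · rfl
      · rfl
      · exact h0
    have hQ' := hQ
    rw [hvv] at hQ'
    obtain ⟨h1, h2⟩ := infty_main (Hm q q') hB (v 0) (v 1) hQ'
    rw [hvv, h1, h2]
    ext i
    fin_cases i <;> rfl
  have hvv : v = v 2 • ![v 0 / v 2, v 1 / v 2, 1] := by
    ext i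
    fin_cases i
    · simp [mul_div_cancel₀ _ hv2]
    · simp [mul_div_cancel₀ _ hv2]
    · simp
  rw [Set.mem_iUnion₂]
  have hmem : (v 0 / v 2, v 1 / v 2) ∈
      {p : ℂ × ℂ | ∀ k, Qd (Hm q q') k ![p.1, p.2, 1] = 0} := by
    intro k
    have h1 := hQ k
    rw [hvv, Qd_smul] at h1
    exact (mul_eq_zero.mp h1).resolve_left (pow_ne_zero _ hv2)
  refine ⟨(v 0 / v 2, v 1 / v 2), hmem, ?_⟩
  have hne : (M * (Nm q)⁻¹).mulVec (nu ![v 0 / v 2, v 1 / v 2, 1]) ≠ 0 := by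
    intro h0
    apply h
    rw [hvv, nu_smul, Matrix.mulVec_smul]
    exact (congrArg _ h0).trans (smul_zero _)
  refine ⟨hne, ?_⟩
  rw [Projectivization.mk_eq_mk_iff']
  refine ⟨v 2 ^ 3, ?_⟩
  rw [← Matrix.mulVec_smul, ← nu_smul]
  congr 2
  exact hvv.symm

theorem Vset_infinite (G : Matrix (Fin 10) (Fin 10) ℂ) (hG : G.det ≠ 0) : (Vset G).Infinite := by
  have hinj : Function.Injective G.mulVec :=
    Matrix.mulVec_injective_iff_isUnit.mpr ((Matrix.isUnit_iff_isUnit_det _).mpr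
      (isUnit_iff_ne_zero.mpr hG))
  have hne : ∀ x : ℂ, G.mulVec (nu ![x, 0, 1]) ≠ 0 := by
    intro x h
    have h1 : nu ![x, 0, 1] = 0 := hinj (by rw [h, Matrix.mulVec_zero])
    have h2 := congrFun h1 9
    simp [nu, ex] at h2
  let Ψ : ℂ → ℙ ℂ (Fin 10 → ℂ) := fun x => Projectivization.mk ℂ _ (hne x)
  have hΨ : Function.Injective Ψ := by
    intro x y hxy
    simp only [Ψ] at hxy
    rw [Projectivization.mk_eq_mk_iff'] at hxy
    obtain ⟨a, ha⟩ := hxy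
    rw [← Matrix.mulVec_smul] at ha
    have h1 := hinj ha
    have h2 := congrFun h1 9
    have h3 := congrFun h1 5
    simp [nu, ex] at h2 h3
    rw [h2, one_mul] at h3
    exact h3.symm
  refine (Set.infinite_range_of_injective hΨ).mono ?_
  rintro _ ⟨x, rfl⟩
  refine ⟨![x, 0, 1], ?_, hne x, rfl⟩
  intro h
  have := congrFun h 2
  simp at this

end two

end Pool.Agent.HVeronese
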